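import Pool.Agent.Helper93.Riesz.AvgCore
import Pool.Agent.Helper23.Riesz.Target2

/-!
# Averaging over random cells: the transfer inequality for powers
-/

set_option autoImplicit false
open MeasureTheory Set Filter Topology
open scoped ENNReal NNReal

namespace Helper23.Riesz

variable {s : ℝ} {d : ℕ}

/-- from `target`, `mismatch` and `hyp_pow`: integrate `target` over the random hyperplanes. -/
theorem transfer_pow_of (hd : 1 ≤ d) (hs : 0 < s) (hsd : s < d)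
    (energy_lower : ∃ C₁ : ℝ, 0 ≤ C₁ ∧ ∀ Y : Finset (S d),
      -C₁ * (Y.card : ℝ) ^ (1 + s / d) ≤ en s Y - (Y.card : ℝ) ^ 2 * V s d) :
    ∃ c : ℝ, 0 < c ∧ c ≤ 1/2 ∧ ∃ C₀ : ℝ, ∀ m : ℕ, Transfer s d C₀ (fun r => (1 - c * r) ^ m) := by
  classical
  obtain ⟨C₁, -, hC₁⟩ := energy_lower
  obtain ⟨C₂, hC₂⟩ := mismatch hd hs hsd C₁ hC₁
  obtain ⟨c, hc0, hc1, H⟩ := hyp_pow_of d (isProbabilityMeasure_sig d) rot_mp exists_rot
  refine ⟨c, hc0, hc1, max C₂ (V s d), fun m => ?_⟩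
  obtain ⟨Ω', mΩ', μ', cell, hμ', hc, hprob⟩ := H m
  intro X N' hN' t ht htd B hB ε hε n φ hφm hφ hpos
  obtain ⟨r⟩ := nonempty_rotSys d
  have h : KFacts s d := kfacts hd hs hsd
  have := h.prob
  have hf : ∀ x y : S d, μ'.real {ω | cell ω x = cell ω y} =
      (fun ρ : ℝ => (1 - c * ρ) ^ m) (dist x y) := hprob
  -- the inequality for every ω'
  have hcell : ∀ ω', Measurable (cell ω') := fun ω' =>
    hc.comp (measurable_const.prodMk measurable_id)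
  set A : ℝ := n * t ^ (-s) with hA
  set b : ℝ := (1 + ε) ^ (-s) * (X.card : ℝ) ^ 2 with hb
  set E₀ : ℝ := N' * V s d + C₂ * (N' : ℝ) ^ (2 * s / d) with hE₀
  set D : ℝ := Emin s d N' - (N' : ℝ) ^ 2 * V s d with hD
  set I₁ : Ω' → ℝ := fun ω' => ∑ x ∈ X, ∑ y ∈ X, ∫ ω, pairF s r cell B x y ω' ω ∂r.μ with hI₁
  set I₂ : Ω' → ℝ := fun ω' =>
    ∫ p, bgF s cell ω' p ∂(((sig d).restrict B).prod ((sig d).restrict B)) with hI₂
  have key : ∀ ω', D ≤ A * (I₁ ω' - b * I₂ ω') + E₀ := by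
    intro ω'
    obtain ⟨Y, hY⟩ := target h hs r X N' ht htd hB hε φ hφm hφ hpos (cell ω') (hcell ω')
    have hM := hC₂ N' hN' Y
    rw [pair_sum_eq r hc hB ω' X, bg_eq h hc B ω'] at hY
    calc D ≤ _ := hM
      _ ≤ _ := by rw [hE₀]; linarith
  have iI₁ : Integrable I₁ μ' :=
    integrable_finsetSum _ (fun x _ => integrable_finsetSum _ (fun y _ =>
      integrable_pairInt r hc hB x y))
  have iI₂ : Integrable I₂ μ' := (integrable_bgF h hc B).integral_prod_left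
  have j2 : Integrable (fun ω' => b * I₂ ω') μ' := iI₂.const_mul b
  have j3 : Integrable (fun ω' => I₁ ω' - b * I₂ ω') μ' := iI₁.sub j2
  have j4 : Integrable (fun ω' => A * (I₁ ω' - b * I₂ ω')) μ' := j3.const_mul A
  have j5 : Integrable (fun ω' => A * (I₁ ω' - b * I₂ ω') + E₀) μ' := j4.add (integrable_const E₀)
  have hmono : ∫ _ω' : Ω', D ∂μ' ≤ ∫ ω', (A * (I₁ ω' - b * I₂ ω') + E₀) ∂μ' :=
    integral_mono (integrable_const D) j5 key
  have e3 : ∫ ω', I₁ ω' ∂μ' = (sig d).real B *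
      ∑ x ∈ X, ∑ y ∈ X, K s x y * (fun ρ : ℝ => (1 - c * ρ) ^ m) (dist x y) :=
    integral_pair_sum (f := fun ρ : ℝ => (1 - c * ρ) ^ m) r hc hf hB X
  have e4 : ∫ ω', I₂ ω' ∂μ' = ∫ x in B, ∫ y in B, K s x y *
      (fun ρ : ℝ => (1 - c * ρ) ^ m) (dist x y) ∂(sig d) ∂(sig d) :=
    integral_bg (f := fun ρ : ℝ => (1 - c * ρ) ^ m) h hc hf B
  have e5 : ∫ ω', (A * (I₁ ω' - b * I₂ ω') + E₀) ∂μ' =
      A * (∫ ω', I₁ ω' ∂μ' - b * ∫ ω', I₂ ω' ∂μ') + E₀ := by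
    rw [integral_add j4 (integrable_const E₀), integral_const_mul, integral_sub iI₁ j2,
      integral_const_mul]
    simp
  have e6 : D ≤ A * (∫ ω', I₁ ω' ∂μ' - b * ∫ ω', I₂ ω' ∂μ') + E₀ := by
    rw [← e5]
    have : ∫ _ω' : Ω', D ∂μ' = D := by simp
    rw [this] at hmono
    exact hmono
  rw [e3, e4] at e6
  have hp1 : (0 : ℝ) ≤ (N' : ℝ) ^ (2 * s / d) := by positivity
  have hp2 : (0 : ℝ) ≤ (N' : ℝ) := by positivity
  have e7 : E₀ ≤ max C₂ (V s d) * ((N' : ℝ) ^ (2 * s / d) + N') := by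
    rw [hE₀]
    have h1 := mul_le_mul_of_nonneg_right (le_max_left C₂ (V s d)) hp1
    have h2 := mul_le_mul_of_nonneg_right (le_max_right C₂ (V s d)) hp2
    nlinarith
  linarith

end Helper23.Riesz
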