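import Pool.Agent.Helper23.Riesz.TransferDef
import Pool.Agent.Helper72.Riesz.Hyp

/-!
# Averaging over random cells
-/

set_option autoImplicit false
open MeasureTheory Set Filter Topology
open scoped ENNReal NNReal

namespace Helper23.Riesz

variable {s : ℝ} {d : ℕ}

section avg

variable {Ω' : Type} [MeasurableSpace Ω'] {μ' : Measure Ω'} [IsProbabilityMeasure μ']
  {κ : Type} [MeasurableSpace κ] [MeasurableSingletonClass κ] [Countable κ]
  {cell : Ω' → S d → κ}

lemma measurableSet_same (hc : Measurable (fun p : Ω' × S d => cell p.1 p.2)) {γ : Type}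
    [MeasurableSpace γ] {u : γ → Ω'} {v w : γ → S d} (hu : Measurable u) (hv : Measurable v)
    (hw : Measurable w) : MeasurableSet {z | cell (u z) (v z) = cell (u z) (w z)} :=
  measurableSet_eq_fun (hc.comp (hu.prodMk hv)) (hc.comp (hu.prodMk hw))

lemma measurableSet_same_fix (hc : Measurable (fun p : Ω' × S d => cell p.1 p.2)) (a b : S d) :
    MeasurableSet {ω' | cell ω' a = cell ω' b} :=
  measurableSet_same hc measurable_id (measurable_const (a := a)) (measurable_const (a := b))

open Classical in
/-- the integrand for a pair of points -/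
noncomputable def pairF (s : ℝ) (r : RotSys d) (cell : Ω' → S d → κ) (B : Set (S d)) (x y : S d)
    (ω' : Ω') (ω : r.Ω) : ℝ :=
  if rot (r.a ω) x ∈ B ∧ cell ω' (rot (r.a ω) x) = cell ω' (rot (r.a ω) y) then K s x y else 0

lemma integrable_pairF (r : RotSys d) (hc : Measurable (fun p : Ω' × S d => cell p.1 p.2))
    {B : Set (S d)} (hB : MeasurableSet B) (x y : S d) :
    Integrable (Function.uncurry (pairF s r cell B x y)) (μ'.prod r.μ) := by
  classical
  have hm : MeasurableSet {z : Ω' × r.Ω | rot (r.a z.2) x ∈ B ∧
      cell z.1 (rot (r.a z.2) x) = cell z.1 (rot (r.a z.2) y)} := by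
    apply MeasurableSet.inter
    · exact (r.meas_pt x).comp measurable_snd hB
    · exact measurableSet_same hc measurable_fst ((r.meas_pt x).comp measurable_snd)
        ((r.meas_pt y).comp measurable_snd)
  have hmeas : Measurable (Function.uncurry (pairF s r cell B x y)) := by
    exact Measurable.ite hm measurable_const measurable_const
  refine Integrable.of_bound hmeas.aestronglyMeasurable (|K s x y|) ?_
  refine Eventually.of_forall fun z => ?_
  unfold Function.uncurry pairF
  split_ifs
  · exact le_of_eq (Real.norm_eq_abs _)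
  · simp

lemma integrable_pairF_fix (r : RotSys d) (hc : Measurable (fun p : Ω' × S d => cell p.1 p.2))
    {B : Set (S d)} (hB : MeasurableSet B) (ω' : Ω') (x y : S d) :
    Integrable (fun ω => pairF s r cell B x y ω' ω) r.μ := by
  classical
  have hm : MeasurableSet {ω : r.Ω | rot (r.a ω) x ∈ B ∧
      cell ω' (rot (r.a ω) x) = cell ω' (rot (r.a ω) y)} := by
    apply MeasurableSet.inter
    · exact (r.meas_pt x) hB
    · exact measurableSet_same hc (measurable_const (a := ω')) (r.meas_pt x) (r.meas_pt y)
  have hmeas : Measurable (fun ω => pairF s r cell B x y ω' ω) := by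
    exact Measurable.ite hm measurable_const measurable_const
  refine Integrable.of_bound hmeas.aestronglyMeasurable (|K s x y|)
    (Eventually.of_forall fun ω => ?_)
  unfold pairF
  split_ifs
  · exact le_of_eq (Real.norm_eq_abs _)
  · simp

open Classical in
lemma pair_sum_eq (r : RotSys d) (hc : Measurable (fun p : Ω' × S d => cell p.1 p.2))
    {B : Set (S d)} (hB : MeasurableSet B) (ω' : Ω') (X : Finset (S d)) :
    (∫ ω, ∑ x ∈ X, ∑ y ∈ X,
          (if rot (r.a ω) x ∈ B ∧ cell ω' (rot (r.a ω) x) = cell ω' (rot (r.a ω) y)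
            then K s x y else 0) ∂r.μ) =
      ∑ x ∈ X, ∑ y ∈ X, ∫ ω, pairF s r cell B x y ω' ω ∂r.μ := by
  show (∫ ω, ∑ x ∈ X, ∑ y ∈ X, pairF s r cell B x y ω' ω ∂r.μ) = _
  rw [integral_finsetSum _ (fun x _ => integrable_finsetSum _
    (fun y _ => integrable_pairF_fix r hc hB ω' x y))]
  refine Finset.sum_congr rfl fun x _ => ?_
  rw [integral_finsetSum _ (fun y _ => integrable_pairF_fix r hc hB ω' x y)]

lemma integral_pairF (r : RotSys d) (hc : Measurable (fun p : Ω' × S d => cell p.1 p.2))
    {f : ℝ → ℝ} (hf : ∀ x y : S d, μ'.real {ω | cell ω x = cell ω y} = f (dist x y))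
    {B : Set (S d)} (hB : MeasurableSet B) (x y : S d) :
    ∫ ω', (∫ ω, pairF s r cell B x y ω' ω ∂r.μ) ∂μ' =
      (sig d).real B * (K s x y * f (dist x y)) := by
  classical
  rw [integral_integral_swap (integrable_pairF r hc hB x y)]
  have h1 : ∀ ω, ∫ ω', pairF s r cell B x y ω' ω ∂μ' =
      B.indicator (fun _ => K s x y * f (dist x y)) (rot (r.a ω) x) := by
    intro ω
    by_cases hx : rot (r.a ω) x ∈ B
    · rw [indicator_of_mem hx]
      have h2 : ∀ ω', pairF s r cell B x y ω' ω =
          {ω' | cell ω' (rot (r.a ω) x) = cell ω' (rot (r.a ω) y)}.indicator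
            (fun _ => K s x y) ω' := by
        intro ω'
        unfold pairF
        simp only [hx, true_and, indicator_apply]
        rfl
      simp_rw [h2]
      rw [integral_indicator_const _ (measurableSet_same_fix hc _ _)]
      rw [smul_eq_mul, mul_comm]
      congr 1
      rw [← rot_dist (r.a ω) x y]
      exact hf _ _
    · rw [indicator_of_notMem hx]
      have h2 : ∀ ω', pairF s r cell B x y ω' ω = 0 := by
        intro ω'
        unfold pairF
        simp only [hx, false_and, if_false]
      simp_rw [h2]
      simp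
  simp_rw [h1]
  rw [r.integral_law (B.indicator (fun _ => K s x y * f (dist x y)))
    (measurable_const.indicator hB) x, integral_indicator_const _ hB, smul_eq_mul]

lemma integrable_pairInt (r : RotSys d) (hc : Measurable (fun p : Ω' × S d => cell p.1 p.2))
    {B : Set (S d)} (hB : MeasurableSet B) (x y : S d) :
    Integrable (fun ω' => ∫ ω, pairF s r cell B x y ω' ω ∂r.μ) μ' :=
  (integrable_pairF r hc hB x y).integral_prod_left

lemma integral_pair_sum (r : RotSys d) (hc : Measurable (fun p : Ω' × S d => cell p.1 p.2))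
    {f : ℝ → ℝ} (hf : ∀ x y : S d, μ'.real {ω | cell ω x = cell ω y} = f (dist x y))
    {B : Set (S d)} (hB : MeasurableSet B) (X : Finset (S d)) :
    ∫ ω', (∑ x ∈ X, ∑ y ∈ X, ∫ ω, pairF s r cell B x y ω' ω ∂r.μ) ∂μ' =
      (sig d).real B * ∑ x ∈ X, ∑ y ∈ X, K s x y * f (dist x y) := by
  rw [integral_finsetSum _ (fun x _ => integrable_finsetSum _ (fun y _ =>
    integrable_pairInt r hc hB x y)), Finset.mul_sum]
  refine Finset.sum_congr rfl fun x _ => ?_
  rw [integral_finsetSum _ (fun y _ => integrable_pairInt r hc hB x y), Finset.mul_sum]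
  refine Finset.sum_congr rfl fun y _ => ?_
  exact integral_pairF r hc hf hB x y

/-- the kernel is integrable on the square of a dominated finite measure -/
lemma integrable_K_prod (h : KFacts s d) (B : Set (S d)) :
    Integrable (fun p : S d × S d => K s p.1 p.2)
      (((sig d).restrict B).prod ((sig d).restrict B)) := by
  have := h.prob
  have hd : Dom 1 ((sig d).restrict B) := by
    unfold Dom; rw [one_smul]; exact Measure.restrict_le_self
  rw [integrable_prod_iff (measurable_K s).aestronglyMeasurable]
  refine ⟨Eventually.of_forall fun x => hd.integrable h x, ?_⟩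
  have h2 : ∀ x : S d, ∀ y : S d, ‖K s x y‖ = K s x y := fun x y =>
    Real.norm_of_nonneg (K_nonneg s x y)
  simp_rw [h2]
  exact hd.integrable_pot h _

open Classical in
/-- the integrand for the background -/
noncomputable def bgF (s : ℝ) (cell : Ω' → S d → κ) (ω' : Ω') (p : S d × S d) : ℝ :=
  if cell ω' p.1 = cell ω' p.2 then K s p.1 p.2 else 0

lemma bgF_le (ω' : Ω') (p : S d × S d) : ‖bgF s cell ω' p‖ ≤ ‖K s p.1 p.2‖ := by
  unfold bgF
  split_ifs
  · exact le_rfl
  · simp

lemma measurable_bgF (hc : Measurable (fun p : Ω' × S d => cell p.1 p.2)) :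
    Measurable (Function.uncurry (bgF s cell)) := by
  classical
  refine Measurable.ite ?_ ?_ measurable_const
  · exact measurableSet_same hc measurable_fst (measurable_fst.comp measurable_snd)
      (measurable_snd.comp measurable_snd)
  · exact (measurable_K s).comp measurable_snd

lemma integrable_bgF (h : KFacts s d) (hc : Measurable (fun p : Ω' × S d => cell p.1 p.2))
    (B : Set (S d)) : Integrable (Function.uncurry (bgF s cell))
      (μ'.prod (((sig d).restrict B).prod ((sig d).restrict B))) := by
  have := h.prob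
  have h1 : Integrable (fun z : Ω' × (S d × S d) => K s z.2.1 z.2.2)
      (μ'.prod (((sig d).restrict B).prod ((sig d).restrict B))) :=
    (integrable_K_prod h B).comp_snd μ'
  refine h1.mono (measurable_bgF hc).aestronglyMeasurable ?_
  exact Eventually.of_forall fun z => bgF_le z.1 z.2

lemma integrable_bgF_fix (h : KFacts s d) (hc : Measurable (fun p : Ω' × S d => cell p.1 p.2))
    (B : Set (S d)) (ω' : Ω') : Integrable (bgF s cell ω')
      (((sig d).restrict B).prod ((sig d).restrict B)) := by
  refine (integrable_K_prod h B).mono ?_ (Eventually.of_forall fun p => bgF_le ω' p)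
  exact ((measurable_bgF (s := s) hc).comp (measurable_const.prodMk measurable_id)).aestronglyMeasurable

open Classical in
lemma bg_eq (h : KFacts s d) (hc : Measurable (fun p : Ω' × S d => cell p.1 p.2))
    (B : Set (S d)) (ω' : Ω') :
    ∫ x in B, ∫ y in B, (if cell ω' x = cell ω' y then K s x y else 0) ∂(sig d) ∂(sig d) =
      ∫ p, bgF s cell ω' p ∂(((sig d).restrict B).prod ((sig d).restrict B)) := by
  have := h.prob
  rw [integral_prod _ (integrable_bgF_fix h hc B ω')]
  rfl

lemma integral_bg (h : KFacts s d) (hc : Measurable (fun p : Ω' × S d => cell p.1 p.2))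
    {f : ℝ → ℝ} (hf : ∀ x y : S d, μ'.real {ω | cell ω x = cell ω y} = f (dist x y))
    (B : Set (S d)) :
    ∫ ω', (∫ p, bgF s cell ω' p ∂(((sig d).restrict B).prod ((sig d).restrict B))) ∂μ' =
      ∫ x in B, ∫ y in B, K s x y * f (dist x y) ∂(sig d) ∂(sig d) := by
  classical
  have := h.prob
  have h0 := integrable_bgF (μ' := μ') h hc B
  rw [integral_integral_swap h0]
  have h1 : ∀ p : S d × S d, ∫ ω', bgF s cell ω' p ∂μ' = K s p.1 p.2 * f (dist p.1 p.2) := by
    intro p
    have h2 : ∀ ω', bgF s cell ω' p =
        {ω' | cell ω' p.1 = cell ω' p.2}.indicator (fun _ => K s p.1 p.2) ω' := by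
      intro ω'
      unfold bgF
      simp only [indicator_apply]
      rfl
    simp_rw [h2]
    rw [integral_indicator_const _ (measurableSet_same_fix hc _ _), smul_eq_mul, mul_comm, hf]
  simp_rw [h1]
  have h3 := h0.integral_prod_right
  have h4 : Integrable (fun p : S d × S d => K s p.1 p.2 * f (dist p.1 p.2))
      (((sig d).restrict B).prod ((sig d).restrict B)) := by
    refine h3.congr (Eventually.of_forall fun p => ?_)
    exact h1 p
  rw [integral_prod _ h4]

end avg

end Helper23.Riesz
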